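import Mathlib

/-!
# Vertices covered by `s` of `r` colours

`g(n,r,s)` is the largest `m` such that in every `r`-edge colouring of `K_n` some set of `s` colours
covers at least `m` vertices. We prove `g(n,r,s) ≤ (1 - exp(-C s² / r)) n` for an absolute constant
`C`, all `r, s` with `√r ≤ s ≤ r / 400` and all `n` large in terms of `r` and `s`.

Construction. Take `2k+1` disjoint `m × m` grids of colours, `k ≈ 192 s²/r`, `m ≈ 4s/k`. A class of
vertices is given by a set `I` of `k+1` grids together with a row and a column in each grid. Two such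
sets `I`, `I'` meet, and the row of the first class meets the column of the second one in a grid
`i ∈ I ∩ I'`; this colour is used for the edges between the two classes. So all edges at a vertex
have colours in the chosen rows and columns of the grids in `I`. A set `S` of `s` colours has more than
`m/4` elements in fewer than `k` grids, and in each of the other grids at least half of the pairs
(row, column) miss `S`.
-/

set_option autoImplicit false

namespace Pool.Agent.Results.MP_a018d0_co.CoveringBySColours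

open Filter Topology
open scoped Classical

/-- The vertices which are an endpoint of at least one edge whose colour lies in `S`. -/
noncomputable def covered {n r : ℕ} (c : (⊤ : SimpleGraph (Fin n)).edgeSet → Fin r)
    (S : Finset (Fin r)) : Finset (Fin n) :=
  Finset.univ.filter (fun v => ∃ e : (⊤ : SimpleGraph (Fin n)).edgeSet, v ∈ (e : Sym2 (Fin n)) ∧
    c e ∈ S)

/-- `g(n,r,s)`: the largest `m` such that in every `r`-edge colouring of `K_n` some set of `s`
colours covers at least `m` vertices. -/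
noncomputable def g (n r s : ℕ) : ℕ :=
  sSup {m : ℕ | ∀ c : (⊤ : SimpleGraph (Fin n)).edgeSet → Fin r,
    ∃ S : Finset (Fin r), S.card = s ∧ m ≤ (covered c S).card}

/-- the classes of vertices -/
abbrev Cls (k m : ℕ) : Type :=
  {I : Finset (Fin (2 * k + 1)) // I.card = k + 1} × (Fin (2 * k + 1) → Fin m × Fin m)

theorem inter_nonempty {k : ℕ} (I J : {I : Finset (Fin (2 * k + 1)) // I.card = k + 1}) :
    (I.1 ∩ J.1).Nonempty := by
  by_contra h
  rw [Finset.not_nonempty_iff_eq_empty] at h
  have h1 := Finset.card_union_add_card_inter I.1 J.1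
  rw [h, Finset.card_empty, I.2, J.2] at h1
  have h2 := Finset.card_le_univ (I.1 ∪ J.1)
  rw [Fintype.card_fin] at h2
  omega

/-- a common grid -/
noncomputable def common {k : ℕ} (I J : {I : Finset (Fin (2 * k + 1)) // I.card = k + 1}) :
    Fin (2 * k + 1) := (inter_nonempty I J).choose

theorem common_mem {k : ℕ} (I J : {I : Finset (Fin (2 * k + 1)) // I.card = k + 1}) :
    common I J ∈ I.1 ∧ common I J ∈ J.1 :=
  Finset.mem_inter.1 (inter_nonempty I J).choose_spec

/-- the colour of the edges from one class to another -/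
noncomputable def colr {k m r : ℕ} (ι : Fin (2 * k + 1) × Fin m × Fin m → Fin r)
    (p q : Cls k m) : Fin r :=
  ι (common p.1 q.1, (p.2 (common p.1 q.1)).1, (q.2 (common p.1 q.1)).2)

/-- the pairs (row, column) of the grid `i` which miss `S` -/
noncomputable def free {k m r : ℕ} (ι : Fin (2 * k + 1) × Fin m × Fin m → Fin r)
    (S : Finset (Fin r)) (i : Fin (2 * k + 1)) : Finset (Fin m × Fin m) :=
  Finset.univ.filter (fun ab => (∀ y, ι (i, ab.1, y) ∉ S) ∧ ∀ x, ι (i, x, ab.2) ∉ S)

/-- the class misses `S` -/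
def Miss {k m r : ℕ} (ι : Fin (2 * k + 1) × Fin m × Fin m → Fin r) (S : Finset (Fin r))
    (p : Cls k m) : Prop := ∀ i ∈ p.1.1, p.2 i ∈ free ι S i

theorem colr_notMem {k m r : ℕ} {ι : Fin (2 * k + 1) × Fin m × Fin m → Fin r}
    {S : Finset (Fin r)} {p : Cls k m} (hp : Miss ι S p) (q : Cls k m) :
    colr ι p q ∉ S ∧ colr ι q p ∉ S := by
  have h1 := hp _ (common_mem p.1 q.1).1
  have h2 := hp _ (common_mem q.1 p.1).2
  rw [free, Finset.mem_filter] at h1 h2
  exact ⟨h1.2.1 _, h2.2.2 _⟩

theorem card_free {k m r : ℕ} (ι : Fin (2 * k + 1) × Fin m × Fin m → Fin r)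
    (S : Finset (Fin r)) (i : Fin (2 * k + 1)) (n : ℕ)
    (hn : ((Finset.univ : Finset (Fin m × Fin m)).filter (fun p => ι (i, p) ∈ S)).card ≤ n) :
    (m - n) ^ 2 ≤ (free ι S i).card := by
  set H := (Finset.univ : Finset (Fin m × Fin m)).filter (fun p => ι (i, p) ∈ S) with hH
  have h1 : (Finset.univ \ H.image Prod.fst) ×ˢ (Finset.univ \ H.image Prod.snd) ⊆
      free ι S i := by
    intro ab hab
    rw [Finset.mem_product, Finset.mem_sdiff, Finset.mem_sdiff] at hab
    rw [free, Finset.mem_filter]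
    refine ⟨Finset.mem_univ _, ?_, ?_⟩
    · intro y hy
      apply hab.1.2
      rw [Finset.mem_image]
      exact ⟨(ab.1, y), by rw [hH, Finset.mem_filter]; exact ⟨Finset.mem_univ _, hy⟩, rfl⟩
    · intro x hx
      apply hab.2.2
      rw [Finset.mem_image]
      exact ⟨(x, ab.2), by rw [hH, Finset.mem_filter]; exact ⟨Finset.mem_univ _, hx⟩, rfl⟩
  have h2 := Finset.card_le_card h1
  rw [Finset.card_product] at h2
  have h3 : m - n ≤ (Finset.univ \ H.image Prod.fst : Finset (Fin m)).card := by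
    rw [Finset.card_sdiff_of_subset (Finset.subset_univ _), Finset.card_univ, Fintype.card_fin]
    have := (Finset.card_image_le (s := H) (f := Prod.fst)).trans hn
    omega
  have h4 : m - n ≤ (Finset.univ \ H.image Prod.snd : Finset (Fin m)).card := by
    rw [Finset.card_sdiff_of_subset (Finset.subset_univ _), Finset.card_univ, Fintype.card_fin]
    have := (Finset.card_image_le (s := H) (f := Prod.snd)).trans hn
    omega
  calc (m - n) ^ 2 = (m - n) * (m - n) := sq _
    _ ≤ _ := (Nat.mul_le_mul h3 h4).trans h2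

/-- many classes miss `S` -/
theorem card_miss {k m r s : ℕ} (ι : Fin (2 * k + 1) × Fin m × Fin m ↪ Fin r)
    (S : Finset (Fin r)) (hS : S.card = s) (hmk : 4 * s ≤ m * k) (hm : 0 < m) (hk : 0 < k) :
    m ^ (2 * (2 * k + 1)) ≤
      2 ^ (k + 1) * ((Finset.univ : Finset (Cls k m)).filter (Miss ι S)).card := by
  set cnt : Fin (2 * k + 1) → ℕ := fun i =>
    ((Finset.univ : Finset (Fin m × Fin m)).filter (fun p => ι (i, p) ∈ S)).card with hcnt
  have hsum : ∑ i, cnt i ≤ s := by
    rw [← hS]
    have h1 : ∑ i, cnt i = ((Finset.univ : Finset (Fin (2 * k + 1) × Fin m × Fin m)).filter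
        (fun p => ι p ∈ S)).card := by
      rw [Finset.card_filter, Fintype.sum_prod_type]
      refine Finset.sum_congr rfl (fun i _ => ?_)
      rw [hcnt]
      simp only
      rw [Finset.card_filter]
    rw [h1]
    refine Finset.card_le_card_of_injOn ι ?_ ι.injective.injOn
    intro p hp
    exact (Finset.mem_filter.1 hp).2
  -- bad grids
  set B : Finset (Fin (2 * k + 1)) := Finset.univ.filter (fun i => m < 4 * cnt i) with hB
  have hBk : B.card < k + 1 := by
    by_contra hcon
    have h1 : k + 1 ≤ B.card := by omega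
    have h2 : B.card * (m + 1) ≤ ∑ i ∈ B, 4 * cnt i := by
      rw [← smul_eq_mul, ← Finset.sum_const]
      refine Finset.sum_le_sum (fun i hi => ?_)
      exact (Finset.mem_filter.1 hi).2
    have h3 : ∑ i ∈ B, 4 * cnt i ≤ ∑ i, 4 * cnt i :=
      Finset.sum_le_sum_of_subset (Finset.subset_univ _)
    have h3' : ∑ i, 4 * cnt i = 4 * ∑ i, cnt i := (Finset.mul_sum _ _ _).symm
    have h4 : (k + 1) * (m + 1) ≤ B.card * (m + 1) := Nat.mul_le_mul_right _ h1
    have h5 : (k + 1) * (m + 1) = m * k + m + k + 1 := by ring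
    omega
  have hgood : k + 1 ≤ (Finset.univ \ B).card := by
    rw [Finset.card_sdiff_of_subset (Finset.subset_univ _), Finset.card_univ, Fintype.card_fin]
    omega
  obtain ⟨I0, hI0, hI0c⟩ := Finset.exists_subset_card_eq hgood
  -- classes with this `I0`
  set P : Finset (Fin (2 * k + 1) → Fin m × Fin m) :=
    Fintype.piFinset (fun i => if i ∈ I0 then free ι S i else Finset.univ) with hP
  have h1 : P.card ≤ ((Finset.univ : Finset (Cls k m)).filter (Miss ι S)).card := by
    refine Finset.card_le_card_of_injOn (fun a => ((⟨I0, hI0c⟩, a) : Cls k m)) ?_ ?_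
    · intro a ha
      rw [Finset.mem_coe, Finset.mem_filter]
      refine ⟨Finset.mem_univ _, ?_⟩
      intro i hi
      have h2 := (Fintype.mem_piFinset.1 ha) i
      have h3 : i ∈ I0 := hi
      rw [if_pos h3] at h2
      exact h2
    · intro a _ b _ hab
      exact (Prod.mk.inj hab).2
  refine le_trans ?_ (Nat.mul_le_mul_left _ h1)
  rw [hP, Fintype.card_piFinset]
  have h2 : ∀ i : Fin (2 * k + 1), (if i ∈ I0 then 1 else 2) * m ^ 2 ≤
      2 * (if i ∈ I0 then free ι S i else Finset.univ).card := by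
    intro i
    by_cases hi : i ∈ I0
    · rw [if_pos hi, if_pos hi, one_mul]
      have h3 : ¬ m < 4 * cnt i := by
        have := Finset.mem_sdiff.1 (hI0 hi)
        intro h
        exact this.2 (by rw [hB, Finset.mem_filter]; exact ⟨Finset.mem_univ _, h⟩)
      have h4 := card_free ι S i (cnt i) le_rfl
      have h5 : 4 * cnt i ≤ m := by omega
      obtain ⟨d, hd⟩ : ∃ d, m = cnt i + d := ⟨m - cnt i, by omega⟩
      have h6 : m - cnt i = d := by omega
      rw [h6] at h4
      nlinarith
    · rw [if_neg hi, if_neg hi, Finset.card_univ, Fintype.card_prod, Fintype.card_fin]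
      nlinarith
  have h3 := Finset.prod_le_prod' (s := Finset.univ) (fun i _ => h2 i)
  rw [Finset.prod_mul_distrib, Finset.prod_mul_distrib, Finset.prod_const, Finset.prod_const,
    Finset.card_univ, Fintype.card_fin, Finset.prod_ite, Finset.prod_const, Finset.prod_const,
    one_pow, one_mul] at h3
  have h4 : ((Finset.univ : Finset (Fin (2 * k + 1))).filter (fun i => i ∉ I0)).card = k := by
    have h5 := Finset.card_filter_add_card_filter_not (s := (Finset.univ : Finset (Fin (2 * k + 1))))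
      (fun i => i ∈ I0)
    rw [Finset.filter_mem_eq_inter, Finset.univ_inter, hI0c, Finset.card_univ,
      Fintype.card_fin] at h5
    omega
  rw [h4, ← pow_mul] at h3
  have h5 : (2 : ℕ) ^ (2 * k + 1) = 2 ^ k * 2 ^ (k + 1) := by
    rw [← pow_add]; congr 1; omega
  rw [h5, mul_assoc] at h3
  exact Nat.le_of_mul_le_mul_left h3 (by positivity)

theorem card_cls {k m : ℕ} : Fintype.card (Cls k m) ≤ 2 ^ (2 * k + 1) * m ^ (2 * (2 * k + 1)) := by
  rw [Fintype.card_prod, Fintype.card_fun, Fintype.card_prod, Fintype.card_fin, Fintype.card_fin]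
  have h1 : Fintype.card {I : Finset (Fin (2 * k + 1)) // I.card = k + 1} ≤ 2 ^ (2 * k + 1) := by
    refine (Fintype.card_subtype_le _).trans ?_
    rw [Fintype.card_finset, Fintype.card_fin]
  have h2 : (m * m) ^ (2 * k + 1) = m ^ (2 * (2 * k + 1)) := by rw [← sq, ← pow_mul]
  rw [h2]
  exact Nat.mul_le_mul_right _ h1

/-- the bound for the construction -/
theorem g_le {k m r s n : ℕ} (hr : (2 * k + 1) * (m * m) ≤ r) (hmk : 4 * s ≤ m * k) (hm : 0 < m)
    (hk : 0 < k) (hn : Fintype.card (Cls k m) ≤ n) :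
    (g n r s : ℝ) ≤ (1 - 1 / 2 ^ (3 * k + 3)) * n := by
  obtain ⟨ι⟩ : Nonempty (Fin (2 * k + 1) × Fin m × Fin m ↪ Fin r) := by
    refine Function.Embedding.nonempty_of_card_le ?_
    simpa using hr
  set Q := Fintype.card (Cls k m) with hQ
  have hQpos : 0 < Q := by
    rw [hQ, Fintype.card_pos_iff]
    obtain ⟨I, -, hI⟩ := Finset.exists_subset_card_eq
      (s := (Finset.univ : Finset (Fin (2 * k + 1)))) (n := k + 1)
      (by rw [Finset.card_univ, Fintype.card_fin]; omega)
    exact ⟨(⟨I, hI⟩, fun _ => (⟨0, hm⟩, ⟨0, hm⟩))⟩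
  set e : Cls k m ≃ Fin Q := Fintype.equivFin (Cls k m) with he
  set cls : Fin n → Cls k m := fun v => e.symm ⟨v % Q, Nat.mod_lt _ hQpos⟩ with hcls
  set f : Fin n → Fin n → Fin r := fun v w =>
    if v ≤ w then colr ι (cls v) (cls w) else colr ι (cls w) (cls v) with hf
  have hsymm : ∀ v w, f v w = f w v := by
    intro v w
    simp only [hf]
    rcases lt_trichotomy v w with h | h | h
    · rw [if_pos h.le, if_neg (not_le.2 h)]
    · rw [h]
    · rw [if_neg (not_le.2 h), if_pos h.le]
  set c : (⊤ : SimpleGraph (Fin n)).edgeSet → Fin r :=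
    fun e => Sym2.lift ⟨f, hsymm⟩ (e : Sym2 (Fin n)) with hc
  have hmain : ∀ S : Finset (Fin r), S.card = s →
      ((covered c S).card : ℝ) ≤ (1 - 1 / 2 ^ (3 * k + 3)) * n := by
    intro S hS
    set Ms : Finset (Cls k m) := (Finset.univ : Finset (Cls k m)).filter (Miss ι S) with hMs
    set U : Finset (Fin n) := Finset.univ.filter (fun v => Miss ι S (cls v)) with hU
    have hdisj : Disjoint (covered c S) U := by
      rw [Finset.disjoint_left]
      intro v hv hvU
      obtain ⟨ed, hved, hced⟩ := (Finset.mem_filter.1 hv).2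
      have hvm := (Finset.mem_filter.1 hvU).2
      obtain ⟨w, hw⟩ := Sym2.mem_iff_exists.1 hved
      have h1 : c ed = f v w := by
        rw [hc]
        simp only
        rw [hw]
        rfl
      rw [h1] at hced
      have h2 := colr_notMem hvm (cls w)
      simp only [hf] at hced
      split_ifs at hced
      · exact h2.1 hced
      · exact h2.2 hced
    have hUcard : Ms.card * (n / Q) ≤ U.card := by
      have h1 : (Ms ×ˢ (Finset.univ : Finset (Fin (n / Q)))).card ≤ U.card := by
        have hlt : ∀ p : Cls k m × Fin (n / Q), (p.2 : ℕ) * Q + (e p.1 : ℕ) < n := by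
          intro p
          have h2 : ((p.2 : ℕ) + 1) * Q ≤ (n / Q) * Q := Nat.mul_le_mul_right _ p.2.2
          have h3 := Nat.div_mul_le_self n Q
          have h4 := (e p.1).2
          have h5 : ((p.2 : ℕ) + 1) * Q = (p.2 : ℕ) * Q + Q := by ring
          omega
        refine Finset.card_le_card_of_injOn (fun p => (⟨(p.2 : ℕ) * Q + (e p.1 : ℕ), hlt p⟩ : Fin n))
          ?_ ?_
        · intro p hp
          rw [Finset.mem_coe, Finset.mem_product] at hp
          rw [Finset.mem_coe, hU, Finset.mem_filter]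
          refine ⟨Finset.mem_univ _, ?_⟩
          have h2 : cls ⟨(p.2 : ℕ) * Q + (e p.1 : ℕ), hlt p⟩ = p.1 := by
            simp only [hcls]
            rw [Equiv.symm_apply_eq]
            ext
            show ((p.2 : ℕ) * Q + (e p.1 : ℕ)) % Q = (e p.1 : ℕ)
            rw [mul_comm, Nat.mul_add_mod, Nat.mod_eq_of_lt (e p.1).2]
          show Miss ι S (cls ⟨(p.2 : ℕ) * Q + (e p.1 : ℕ), hlt p⟩)
          rw [h2]
          exact (Finset.mem_filter.1 hp.1).2
        · intro p _ q _ hpq
          have h2 : (p.2 : ℕ) * Q + (e p.1 : ℕ) = (q.2 : ℕ) * Q + (e q.1 : ℕ) := by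
            have := congrArg Fin.val hpq
            exact this
          have h3 : (e p.1 : ℕ) = (e q.1 : ℕ) := by
            have h4 : ((p.2 : ℕ) * Q + (e p.1 : ℕ)) % Q = ((q.2 : ℕ) * Q + (e q.1 : ℕ)) % Q := by
              rw [h2]
            rw [mul_comm, Nat.mul_add_mod, Nat.mod_eq_of_lt (e p.1).2, mul_comm,
              Nat.mul_add_mod, Nat.mod_eq_of_lt (e q.1).2] at h4
            exact h4
          have h4 : (p.2 : ℕ) = (q.2 : ℕ) := by
            rw [h3] at h2
            exact Nat.eq_of_mul_eq_mul_right hQpos (by omega)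
          exact Prod.ext (e.injective (Fin.ext h3)) (Fin.ext h4)
      rw [Finset.card_product, Finset.card_univ, Fintype.card_fin] at h1
      exact h1
    have hsum : (covered c S).card + U.card ≤ n := by
      rw [← Finset.card_union_of_disjoint hdisj]
      exact (Finset.card_le_univ _).trans (by rw [Fintype.card_fin])
    -- sizes
    have h1 := card_miss ι S hS hmk hm hk
    have h2 : Q ≤ 2 ^ (3 * k + 2) * Ms.card := by
      refine (card_cls (k := k) (m := m)).trans ?_
      have h3 : (2 : ℕ) ^ (3 * k + 2) = 2 ^ (2 * k + 1) * 2 ^ (k + 1) := by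
        rw [← pow_add]; congr 1; omega
      rw [h3, mul_assoc]
      exact Nat.mul_le_mul_left _ h1
    have h3 : n ≤ 2 * (Q * (n / Q)) := by
      have h4 : 1 ≤ n / Q := (Nat.one_le_div_iff hQpos).2 hn
      have h5 := Nat.lt_div_mul_add (a := n) hQpos
      nlinarith
    have h4 : n ≤ 2 ^ (3 * k + 3) * U.card := by
      calc n ≤ 2 * (Q * (n / Q)) := h3
        _ ≤ 2 * ((2 ^ (3 * k + 2) * Ms.card) * (n / Q)) :=
            Nat.mul_le_mul_left _ (Nat.mul_le_mul_right _ h2)
        _ = 2 ^ (3 * k + 3) * (Ms.card * (n / Q)) := by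
            rw [show 3 * k + 3 = (3 * k + 2) + 1 by ring, pow_succ]; ring
        _ ≤ _ := Nat.mul_le_mul_left _ hUcard
    have h5 : (n : ℝ) ≤ 2 ^ (3 * k + 3) * U.card := by exact_mod_cast h4
    have h6 : ((covered c S).card : ℝ) + U.card ≤ n := by exact_mod_cast hsum
    have h7 : (n : ℝ) / 2 ^ (3 * k + 3) ≤ U.card := by
      rw [div_le_iff₀ (by positivity)]
      linarith
    have h8 : (1 - 1 / 2 ^ (3 * k + 3)) * (n : ℝ) = n - n / 2 ^ (3 * k + 3) := by ring
    rw [h8]
    linarith
  have hnn : 0 ≤ (1 - 1 / 2 ^ (3 * k + 3)) * (n : ℝ) := by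
    refine mul_nonneg ?_ (Nat.cast_nonneg _)
    rw [sub_nonneg, div_le_one (by positivity)]
    exact one_le_pow₀ (by norm_num)
  have hle : g n r s ≤ ⌊(1 - 1 / 2 ^ (3 * k + 3)) * (n : ℝ)⌋₊ := by
    refine csSup_le' ?_
    intro a ha
    obtain ⟨S, hS, haS⟩ := ha c
    rw [Nat.le_floor_iff hnn]
    exact (Nat.cast_le.2 haS).trans (hmain S hS)
  exact (Nat.cast_le.2 hle).trans (Nat.floor_le hnn)

/-- the uniform bound -/
theorem uniform (r s : ℕ) (h0 : 1 ≤ s) (h1 : r ≤ s ^ 2) (h2 : 400 * s ≤ r) :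
    ∀ᶠ n : ℕ in atTop, (g n r s : ℝ) ≤ (1 - Real.exp (-(582 * (s : ℝ) ^ 2 / r))) * n := by
  have hr : 0 < r := by omega
  set k : ℕ := 192 * s ^ 2 / r + 1 with hk
  set m : ℕ := 4 * s / k + 1 with hm
  have hrr : (0 : ℝ) < r := by exact_mod_cast hr
  have hkpos : 0 < k := Nat.succ_pos _
  have hkr : (0 : ℝ) < k := by exact_mod_cast hkpos
  have hk1 : 192 * s ^ 2 < k * r := by
    have := Nat.lt_div_mul_add (a := 192 * s ^ 2) hr
    rw [hk]
    nlinarith
  have hk2 : k * r ≤ 193 * s ^ 2 := by
    have := Nat.div_mul_le_self (192 * s ^ 2) r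
    rw [hk]
    nlinarith
  have hk3 : k ≤ s := by
    have : k * r ≤ s * r := by nlinarith
    exact Nat.le_of_mul_le_mul_right this hr
  have hmk : 4 * s ≤ m * k := by
    have := Nat.lt_div_mul_add (a := 4 * s) hkpos
    rw [hm]
    nlinarith
  have hmk2 : m * k ≤ 8 * s := by
    have := Nat.div_mul_le_self (4 * s) k
    rw [hm]
    nlinarith
  have hr2 : (2 * k + 1) * (m * m) ≤ r := by
    have e1 : (m * k) * (m * k) ≤ (8 * s) * (8 * s) := Nat.mul_le_mul hmk2 hmk2
    have e2 : (2 * k + 1) * (m * m) * k ≤ 3 * ((m * k) * (m * k)) := by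
      have : (2 * k + 1) ≤ 3 * k := by omega
      calc (2 * k + 1) * (m * m) * k ≤ (3 * k) * (m * m) * k :=
            Nat.mul_le_mul_right _ (Nat.mul_le_mul_right _ this)
        _ = 3 * ((m * k) * (m * k)) := by ring
    have e3 : (2 * k + 1) * (m * m) * k ≤ r * k := by nlinarith
    exact Nat.le_of_mul_le_mul_right e3 hkpos
  filter_upwards [eventually_ge_atTop (Fintype.card (Cls k m))] with n hn
  refine (g_le hr2 hmk (Nat.succ_pos _) hkpos hn).trans ?_
  refine mul_le_mul_of_nonneg_right ?_ (Nat.cast_nonneg _)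
  have e1 : Real.exp (-(582 * (s : ℝ) ^ 2 / r)) ≤ 1 / 2 ^ (3 * k + 3) := by
    have e2 : ((3 * k + 3 : ℕ) : ℝ) ≤ 582 * (s : ℝ) ^ 2 / r := by
      rw [le_div_iff₀ hrr]
      have : (3 * k + 3) * r ≤ 582 * s ^ 2 := by nlinarith
      exact_mod_cast this
    have e3 : (2 : ℝ) ^ (3 * k + 3) ≤ Real.exp ((3 * k + 3 : ℕ) : ℝ) := by
      rw [← Real.exp_one_pow]
      refine pow_le_pow_left₀ (by norm_num) ?_ _
      have := Real.add_one_le_exp (1 : ℝ)
      linarith
    rw [Real.exp_neg, ← one_div]
    refine one_div_le_one_div_of_le (by positivity) ?_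
    exact e3.trans (Real.exp_le_exp.2 e2)
  linarith

/-- There is an absolute constant `C` with `g(n,r,s) ≤ (1 - exp(-C s²/r)) n` for all `r`, `s` with
`√r ≤ s ≤ r/400` and all large `n`. In particular this holds for every function `s = s(r)` with
`s(r)/√r → ∞` and `s(r)/√(r log r) → 0`, all large `r` and all `n` large in terms of `r`. -/
theorem result : ∃ C : ℝ, 0 < C ∧
    (∀ r s : ℕ, 1 ≤ s → r ≤ s ^ 2 → 400 * s ≤ r → ∀ᶠ n : ℕ in atTop,
      (g n r s : ℝ) ≤ (1 - Real.exp (-(C * (s : ℝ) ^ 2 / r))) * n) ∧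
    (∀ s : ℕ → ℕ, Tendsto (fun r : ℕ => (s r : ℝ) / √(r : ℝ)) atTop atTop →
      Tendsto (fun r : ℕ => (s r : ℝ) / √((r : ℝ) * Real.logb 2 r)) atTop (𝓝 0) →
      ∀ᶠ r : ℕ in atTop, ∀ᶠ n : ℕ in atTop,
        (g n r (s r) : ℝ) ≤ (1 - Real.exp (-(C * (s r : ℝ) ^ 2 / r))) * n) := by
  refine ⟨582, by norm_num, fun r s h0 h1 h2 => uniform r s h0 h1 h2, ?_⟩
  intro s hs1 hs2
  have e1 : ∀ᶠ r : ℕ in atTop, 1 ≤ (s r : ℝ) / √(r : ℝ) := hs1.eventually_ge_atTop 1
  have e2 : ∀ᶠ r : ℕ in atTop, (s r : ℝ) / √((r : ℝ) * Real.logb 2 r) < 1 :=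
    hs2.eventually_lt_const one_pos
  have e3 : ∀ᶠ r : ℕ in atTop, Real.log r ≤ (Real.log 2 / 160000) * r := by
    have h := Real.isLittleO_log_id_atTop.bound (show (0 : ℝ) < Real.log 2 / 160000 by positivity)
    have h' := tendsto_natCast_atTop_atTop.eventually h
    filter_upwards [h', eventually_ge_atTop 1] with r hr hr1
    have : (1 : ℝ) ≤ r := by exact_mod_cast hr1
    simp only [id, Real.norm_eq_abs] at hr
    rw [abs_of_nonneg (Real.log_nonneg this), abs_of_nonneg (by linarith)] at hr
    exact hr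
  filter_upwards [e1, e2, e3, eventually_ge_atTop 2] with r h1 h2 h3 h4
  have hr : (2 : ℝ) ≤ r := by exact_mod_cast h4
  have hsq : (0 : ℝ) < √(r : ℝ) := Real.sqrt_pos.2 (by linarith)
  rw [le_div_iff₀ hsq, one_mul] at h1
  have h5 : (r : ℝ) ≤ (s r : ℝ) ^ 2 := by
    have := Real.sq_sqrt (show (0 : ℝ) ≤ r by linarith)
    nlinarith
  have hlog : 0 < Real.log r := Real.log_pos (by linarith)
  have hl2 : 0 < Real.log 2 := Real.log_pos (by norm_num)
  have h6 : Real.logb 2 r ≤ r / 160000 := by
    rw [Real.logb, div_le_iff₀ hl2]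
    calc Real.log r ≤ (Real.log 2 / 160000) * r := h3
      _ = r / 160000 * Real.log 2 := by ring
  have h6' : 0 < Real.logb 2 r := by
    rw [Real.logb]
    positivity
  have h7 : √((r : ℝ) * Real.logb 2 r) ≤ r / 400 := by
    rw [show (r : ℝ) / 400 = √((r / 400) ^ 2) from (Real.sqrt_sq (by positivity)).symm]
    refine Real.sqrt_le_sqrt ?_
    have : (r : ℝ) * Real.logb 2 r ≤ r * (r / 160000) :=
      mul_le_mul_of_nonneg_left h6 (by linarith)
    calc (r : ℝ) * Real.logb 2 r ≤ r * (r / 160000) := this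
      _ = (r / 400) ^ 2 := by ring
  have h8 : (s r : ℝ) ≤ r / 400 := by
    have h9 : 0 < √((r : ℝ) * Real.logb 2 r) := Real.sqrt_pos.2 (by positivity)
    rw [div_lt_one h9] at h2
    linarith
  have h9 : 1 ≤ s r := by
    have : (0 : ℝ) < s r := lt_of_lt_of_le hsq h1
    exact_mod_cast this
  refine uniform r (s r) h9 (by exact_mod_cast h5) ?_
  have : (400 : ℝ) * s r ≤ r := by linarith
  exact_mod_cast this

end Pool.Agent.Results.MP_a018d0_co.CoveringBySColours
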